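import Mathlib
import Pool.Agent.H287Z.QG.Defs
import Pool.Agent.H287Z.QG.GrowthDefs
import Pool.Agent.H287Z.QG.Growth

set_option autoImplicit false

open scoped TensorProduct

namespace Pool.Agent.Results.MP_75cd78_al.ATwistGrowth

open Pool.Agent.H287Z.QG

/-- There is a closed subgroup `G ⊂ U_4^+` whose dual does not have polynomial growth while every
`Γ_Q` has polynomial growth. -/
theorem result :
    ∃ (A : Type) (_ : CStarAlgebra A) (u : Matrix (Fin 4) (Fin 4) A)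
      (P : Type) (_ : Ring P) (_ : StarRing P) (_ : Algebra ℂ P) (_ : StarModule ℂ P)
      (w : Matrix (Fin 4) (Fin 4) P) (j : P →⋆ₐ[ℂ] A) (Δ : P →⋆ₐ[ℂ] P ⊗[ℂ] P),
      IsCMQG u ∧ IsPol u w j ∧ IsFull j ∧ IsComul Δ w ∧ ¬ DualPolyGrowth w Δ ∧
      ∀ Q : Matrix.unitaryGroup (Fin 4) ℂ, PolyGrowth (torusGen u Q) := by
  obtain ⟨A, _, U, Δ, ε, S, L, h1, h2, hL, hq, hΔ, hε, hU⟩ := example_exists
  exact ⟨A, inferInstance, U, Pol U, inferInstance, inferInstance, inferInstance, inferInstance,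
    ent U, (Pol U).subtype, Δ, h1, isPol_ent U, h2, hq.hΔ, not_dualPolyGrowth hL hq hU,
    fun Q => polyGrowth_of_finite _ (gamma_finite hL tri hq hΔ hε Q)⟩

end Pool.Agent.Results.MP_75cd78_al.ATwistGrowth
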